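import Pool.Agent.X170.Conway.Exists

/-!
# MP_c3a542_nt, Q1 : the parity-perturbed Conway-Mallows sequence, `b(n)/n` does not tend to
`1/(2φ) = (√5 - 1)/4`

The sequence is defined for all `n`, but `b(n) > (5/16) n` for infinitely many `n`, and
`5/16 = 0.3125 > 0.30902 = (√5 - 1)/4`.

Proof.  Let `P_0 = 68`, `P_1 = 110`, `P_2 = 150`, `P_k = P_(k-1) + P_(k-3) + e_k` with `e_k = 12` for
odd `k` and `e_k = -14` for even `k`.  By induction on `k` the values `b(P_k + t) - P_(k-3)`,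
`t ≤ 0` (`t ≤ 9` for even `k`), lie between two explicit functions of `t` (tables for `t ≥ -30`, a
linear and a constant function for `t < -30`); this is closed under the recursion because
`b(P_k + t) = b(x) + b(y) ± 1` with `x = b(P_k + t - 1)` near `P_(k-3)` and
`y = P_k + t - x` near `P_(k-1)`.  At `t = 0` the two tables agree:
`b(P_k) = P_(k-3) + 7` or `P_(k-3) - 5`.  Hence `b(P_k)/P_k` tends to `λ^(-3) = 0.31767...`, where
`λ^3 = λ^2 + 1`.
-/

set_option autoImplicit false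

open Filter Topology

namespace Pool.Agent.Results.MP_c3a542_nt.PeaksPersist

/-- `b(1), b(2), ...` is the sequence of the problem, and it is defined for all `n ≥ 1`:
for every `n ≥ 3` the two indices `i = b(n-1)`, `j = n - b(n-1)` lie in `{1, ..., n-1}` and
`b(n) = b(i) + b(j) + (-1)^n`.  (The value `b 0` is irrelevant.) -/
def IsSeq (b : ℕ → ℤ) : Prop :=
  b 1 = 1 ∧ b 2 = 1 ∧ ∀ n : ℕ, 3 ≤ n → ∃ i j : ℕ, 1 ≤ i ∧ i ≤ n - 1 ∧ 1 ≤ j ∧ j ≤ n - 1 ∧
    (i : ℤ) = b (n - 1) ∧ (j : ℤ) = n - b (n - 1) ∧ b n = b i + b j + (-1) ^ n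

/-- The positions of the peaks: `68, 110, 150, 230, 326, 488, 704, 1042, ...`. -/
def P : ℕ → ℤ
  | 0 => 68
  | 1 => 110
  | 2 => 150
  | k + 3 => P (k + 2) + P k + (if k % 2 = 0 then 12 else -14)

theorem P_eq : ∀ k : ℕ, P k = Pool.Agent.X170.Conway.P k ∧
    P (k + 1) = Pool.Agent.X170.Conway.P (k + 1) ∧
      P (k + 2) = Pool.Agent.X170.Conway.P (k + 2) := by
  intro k
  induction k with
  | zero => exact ⟨rfl, rfl, rfl⟩
  | succ k ih =>
    refine ⟨ih.2.1, ih.2.2, ?_⟩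
    have h1 : P (k + 3) = P (k + 2) + P k + (if k % 2 = 0 then 12 else -14) := rfl
    have h2 : Pool.Agent.X170.Conway.P (k + 3) = Pool.Agent.X170.Conway.P (k + 2) +
      Pool.Agent.X170.Conway.P k + Pool.Agent.X170.Conway.e ((k + 3) % 2 == 1) := rfl
    show P (k + 3) = Pool.Agent.X170.Conway.P (k + 3)
    rw [h1, h2, ih.1, ih.2.2]
    rcases Nat.mod_two_eq_zero_or_one k with h | h
    · have h3 : (k + 3) % 2 = 1 := by omega
      rw [if_pos h, h3]
      rfl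
    · have h3 : (k + 3) % 2 = 0 := by omega
      rw [if_neg (by omega), h3]
      rfl

/-- The sequence is defined for all `n ≥ 1`; `b(P_(k+3)) = P_k + 7` for even `k` and `P_k - 5` for
odd `k`; `b(n)/n > 5/16` for infinitely many `n`; and `b(n)/n` does not converge to
`(√5 - 1)/4`. -/
theorem result :
    (∃ b : ℕ → ℤ, IsSeq b) ∧
    ∀ b : ℕ → ℤ, IsSeq b →
      (∀ k : ℕ, 0 < P (k + 3) ∧ b (P (k + 3)).toNat = P k + (if k % 2 = 0 then 7 else -5)) ∧
      (∀ N : ℕ, ∃ n : ℕ, N ≤ n ∧ (5 / 16 : ℝ) < (b n : ℝ) / n) ∧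
      ¬ Tendsto (fun n : ℕ => (b n : ℝ) / n) atTop (𝓝 ((Real.sqrt 5 - 1) / 4)) := by
  refine ⟨⟨Pool.Agent.X170.Conway.B, Pool.Agent.X170.Conway.isSeq_B⟩, ?_⟩
  intro b hb
  have h1 : ∀ N : ℕ, ∃ n : ℕ, N ≤ n ∧ (5 / 16 : ℝ) < (b n : ℝ) / n := by
    intro N
    obtain ⟨n, hn, h⟩ := Pool.Agent.X170.Conway.often hb (N + 1)
    refine ⟨n, by omega, ?_⟩
    have hn0 : (0 : ℝ) < n := by exact_mod_cast (by omega : 0 < n)
    rw [lt_div_iff₀ hn0]
    have h' : (5 : ℝ) * n < 16 * b n := by exact_mod_cast h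
    linarith
  refine ⟨fun k => ?_, h1, fun hlim => ?_⟩
  · have h2 := Pool.Agent.X170.Conway.peak hb k
    have h3 := (Pool.Agent.X170.Conway.P_big k).2.2
    have e1 : P (k + 3) = Pool.Agent.X170.Conway.P (k + 3) := (P_eq (k + 1)).2.2
    rw [e1, (P_eq k).1, h2]
    refine ⟨by omega, ?_⟩
    rcases Nat.mod_two_eq_zero_or_one k with h | h
    · rw [if_pos h, if_pos (by omega)]
    · rw [if_neg (by omega), if_neg (by omega)]
  have h5 : (Real.sqrt 5 - 1) / 4 < 5 / 16 := by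
    have : Real.sqrt 5 < 9 / 4 := by
      rw [Real.sqrt_lt' (by norm_num)]
      norm_num
    linarith
  have hev := hlim.eventually (gt_mem_nhds h5)
  rw [eventually_atTop] at hev
  obtain ⟨N, hN⟩ := hev
  obtain ⟨n, hn, h⟩ := h1 N
  exact absurd (hN n hn) (not_lt.2 h.le)

end Pool.Agent.Results.MP_c3a542_nt.PeaksPersist
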